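import Mathlib

set_option autoImplicit false

open Matrix
open scoped ComplexOrder Kronecker

namespace Pool.Agent.U925.KF

/-- the first `k` elements of `Fin m` -/
def low (m k : ℕ) : Finset (Fin m) := Finset.univ.filter (fun j => j.val < k)

/-! ### Real lemmas -/

lemma abel_nat (a h : ℕ → ℝ) (m : ℕ) (ha : ∀ i, i + 1 < m → a (i + 1) ≤ a i)
    (ha0 : ∀ i, i < m → 0 ≤ a i) (hh : ∀ k, k ≤ m → 0 ≤ ∑ i ∈ Finset.range k, h i) :
    0 ≤ ∑ i ∈ Finset.range m, a i * h i := by
  rcases Nat.eq_zero_or_pos m with rfl | hm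
  · simp
  have key : ∀ k, k + 1 ≤ m →
      a k * ∑ i ∈ Finset.range (k + 1), h i ≤ ∑ i ∈ Finset.range (k + 1), a i * h i := by
    intro k
    induction k with
    | zero => intro _; simp
    | succ k ih =>
      intro hk
      have h1 := ih (by omega)
      rw [Finset.sum_range_succ _ (k + 1), Finset.sum_range_succ _ (k + 1)]
      have h2 : a (k + 1) * ∑ i ∈ Finset.range (k + 1), h i ≤
          a k * ∑ i ∈ Finset.range (k + 1), h i :=
        mul_le_mul_of_nonneg_right (ha k (by omega)) (hh _ (by omega))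
      nlinarith
  obtain ⟨k, rfl⟩ : ∃ k, m = k + 1 := ⟨m - 1, by omega⟩
  exact le_trans (mul_nonneg (ha0 k (by omega)) (hh _ le_rfl)) (key k le_rfl)

lemma sum_fin_lt {m : ℕ} (f : Fin m → ℝ) (k : ℕ) (hk : k ≤ m) :
    ∑ j ∈ low m k, f j =
      ∑ i ∈ Finset.range k, (fun i => if h : i < m then f ⟨i, h⟩ else 0) i := by
  rw [low, Finset.sum_filter]
  have : ∀ j : Fin m, (if (j : ℕ) < k then f j else 0) =
      (fun i : ℕ => if i < k then (if h : i < m then f ⟨i, h⟩ else 0) else 0) (j : ℕ) := by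
    intro j; simp
  simp_rw [this]
  rw [Fin.sum_univ_eq_sum_range
    (fun i : ℕ => if i < k then (if h : i < m then f ⟨i, h⟩ else 0) else 0) m]
  rw [← Finset.sum_filter]
  refine Finset.sum_congr ?_ fun _ _ => rfl
  ext i; simp; omega

lemma abel_fin {m : ℕ} (a : Fin m → ℝ) (ha : Antitone a) (ha0 : ∀ i, 0 ≤ a i) (f g : Fin m → ℝ)
    (hfg : ∀ k, k ≤ m → ∑ j ∈ low m k, f j ≤ ∑ j ∈ low m k, g j) :
    ∑ j, a j * f j ≤ ∑ j, a j * g j := by
  have h := abel_nat (fun i => if h : i < m then a ⟨i, h⟩ else 0)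
    (fun i => if h : i < m then g ⟨i, h⟩ - f ⟨i, h⟩ else 0) m ?_ ?_ ?_
  · rw [← sub_nonneg, ← Finset.sum_sub_distrib]
    refine le_of_le_of_eq h ?_
    rw [← Fin.sum_univ_eq_sum_range (fun i => (if h : i < m then a ⟨i, h⟩ else 0) *
      (if h : i < m then g ⟨i, h⟩ - f ⟨i, h⟩ else 0)) m]
    refine Finset.sum_congr rfl fun j _ => ?_
    simp [mul_sub]
  · intro i hi
    have h1 : i < m := by omega
    simp only [hi, h1, dite_true]
    exact ha (by simp [Fin.le_def])
  · intro i hi
    simp [hi, ha0]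
  · intro k hk
    rw [← sum_fin_lt (fun j => g j - f j) k hk, Finset.sum_sub_distrib]
    exact sub_nonneg.2 (hfg k hk)

lemma abel_two {m n : ℕ} (a : Fin m → ℝ) (ha : Antitone a) (ha0 : ∀ i, 0 ≤ a i)
    (b : Fin n → ℝ) (hb : Antitone b) (hb0 : ∀ i, 0 ≤ b i) (μ τ : Fin m → Fin n → ℝ)
    (h : ∀ k l, k ≤ m → l ≤ n →
      ∑ j ∈ low m k, ∑ i ∈ low n l, μ j i ≤
      ∑ j ∈ low m k, ∑ i ∈ low n l, τ j i) :
    ∑ j, ∑ i, a j * b i * μ j i ≤ ∑ j, ∑ i, a j * b i * τ j i := by
  have h1 : ∀ l, l ≤ n → ∑ i ∈ low n l, ∑ j, a j * μ j i ≤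
      ∑ i ∈ low n l, ∑ j, a j * τ j i := by
    intro l hl
    rw [Finset.sum_comm (s := low n l) (f := fun i j => a j * μ j i),
      Finset.sum_comm (s := low n l) (f := fun i j => a j * τ j i)]
    simp_rw [← Finset.mul_sum]
    exact abel_fin a ha ha0 _ _ fun k hk => h k l hk hl
  have h2 := abel_fin b hb hb0 _ _ h1
  calc ∑ j, ∑ i, a j * b i * μ j i = ∑ i, b i * ∑ j, a j * μ j i := by
        rw [Finset.sum_comm]
        refine Finset.sum_congr rfl fun i _ => ?_
        rw [Finset.mul_sum]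
        exact Finset.sum_congr rfl fun j _ => by ring
    _ ≤ ∑ i, b i * ∑ j, a j * τ j i := h2
    _ = ∑ j, ∑ i, a j * b i * τ j i := by
        rw [Finset.sum_comm]
        refine Finset.sum_congr rfl fun j _ => ?_
        rw [Finset.mul_sum]
        exact Finset.sum_congr rfl fun i _ => by ring

/-- the fractional Young diagram -/
noncomputable def tau (r : ℝ) (k : ℕ) : ℝ := min 1 (max 0 (r - k))

lemma tau_nonneg (r : ℝ) (k : ℕ) : 0 ≤ tau r k := le_min zero_le_one (le_max_left _ _)
lemma tau_le_one (r : ℝ) (k : ℕ) : tau r k ≤ 1 := min_le_left _ _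

lemma sum_tau (r : ℝ) (hr : 0 ≤ r) (l : ℕ) :
    ∑ k ∈ Finset.range l, tau r k = min (l : ℝ) r := by
  induction l with
  | zero => simp [hr]
  | succ l ih =>
    rw [Finset.sum_range_succ, ih, tau]
    push_cast
    rcases le_total r l with h | h
    · rw [min_eq_right h, max_eq_left (by linarith), min_eq_right zero_le_one,
        min_eq_right (by linarith)]; ring
    · rw [min_eq_left h, max_eq_right (by linarith)]
      rcases le_total r (l + 1) with h' | h'
      · rw [min_eq_right (by linarith), min_eq_right h']; ring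
      · rw [min_eq_left (by linarith), min_eq_left h']

lemma sum_tau_fin {n : ℕ} (r : ℝ) (hr : 0 ≤ r) (l : ℕ) (hl : l ≤ n) :
    ∑ i ∈ low n l, tau r i = min (l : ℝ) r := by
  rw [sum_fin_lt (fun i : Fin n => tau r i) l hl, ← sum_tau r hr l]
  refine Finset.sum_congr rfl fun i hi => ?_
  have : i < n := lt_of_lt_of_le (Finset.mem_range.1 hi) hl
  simp [this]

/-- weighted sums of a nonincreasing nonnegative sequence -/
lemma weight_le {N : ℕ} (lam w : Fin N → ℝ) (hlam : Antitone lam) (h0 : ∀ i, 0 ≤ lam i)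
    (hw0 : ∀ i, 0 ≤ w i) (hw1 : ∀ i, w i ≤ 1) (t : ℕ) (hw : ∑ i, w i ≤ t) :
    ∑ i, lam i * w i ≤ ∑ i ∈ low N t, lam i := by
  have h := abel_fin lam hlam h0 w (fun i => if (i : ℕ) < t then 1 else 0) ?_
  · refine h.trans_eq ?_
    rw [low, Finset.sum_filter]
    exact Finset.sum_congr rfl fun i _ => by simp
  · intro k hk
    have h1 : ∑ j ∈ low N k, (if (j : ℕ) < t then (1 : ℝ) else 0) =
        min (k : ℝ) t := by
      rw [sum_fin_lt _ k hk]
      have : ∀ i ∈ Finset.range k, (fun i => if h : i < N then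
          (if ((⟨i, h⟩ : Fin N) : ℕ) < t then (1 : ℝ) else 0) else 0) i =
          if i < t then 1 else 0 := by
        intro i hi
        have : i < N := lt_of_lt_of_le (Finset.mem_range.1 hi) hk
        simp [this]
      rw [Finset.sum_congr rfl this, ← Finset.sum_filter, Finset.sum_const]
      simp only [nsmul_eq_mul, mul_one]
      rw [← Nat.cast_min]
      congr 1
      have : (Finset.range k).filter (· < t) = Finset.range (min k t) := by
        ext i; simp
      rw [this, Finset.card_range]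
    rw [h1]
    refine le_min ?_ ?_
    · calc ∑ j ∈ low N k, w j ≤ ∑ j ∈ low N k, (1 : ℝ) :=
            Finset.sum_le_sum fun i _ => hw1 i
        _ = k := by
            rw [sum_fin_lt _ k hk]
            have : ∀ i ∈ Finset.range k, (fun i => if h : i < N then (1 : ℝ) else 0) i = 1 := by
              intro i hi
              have : i < N := lt_of_lt_of_le (Finset.mem_range.1 hi) hk
              simp [this]
            rw [Finset.sum_congr rfl this]; simp
    · exact (Finset.sum_le_univ_sum_of_nonneg fun i => hw0 i).trans hw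

end Pool.Agent.U925.KF
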