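import Mathlib

set_option autoImplicit false

open Matrix
open scoped ComplexOrder Kronecker

namespace Pool.Agent.U925.KF

lemma re_star_dot {ι : Type*} [Fintype ι] (x : ι → ℂ) (d : ι → ℝ) :
    (star x ⬝ᵥ (fun i => (d i : ℂ) * x i)).re = ∑ i, d i * Complex.normSq (x i) := by
  simp only [dotProduct, Pi.star_apply, Complex.re_sum]
  refine Finset.sum_congr rfl fun i _ => ?_
  have : star (x i) * ((d i : ℂ) * x i) = ((d i * Complex.normSq (x i) : ℝ) : ℂ) := by
    rw [Complex.ofReal_mul, Complex.normSq_eq_conj_mul_self]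
    simp only [RCLike.star_def]
    ring
  rw [this, Complex.ofReal_re]

/-- Cauchy interlacing, upper half. -/
lemma interlace {m k : ℕ} (hkm : k ≤ m) (W : Matrix (Fin m) (Fin k) ℂ) (hW : Wᴴ * W = 1)
    (r : Fin m → ℝ) (ρ : Fin k → ℝ) (hr : Antitone r) (hρ : Antitone ρ)
    (h : Wᴴ * diagonal (fun i => (r i : ℂ)) * W = diagonal (fun i => (ρ i : ℂ))) (j : Fin k) :
    ρ j ≤ r (Fin.castLE hkm j) := by
  classical
  let T : (Fin k → ℂ) →ₗ[ℂ] (({a : Fin k // j < a} → ℂ) ×
      ({i : Fin m // i < Fin.castLE hkm j} → ℂ)) :=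
    LinearMap.prod (LinearMap.pi fun a => LinearMap.proj a.1)
      (LinearMap.pi fun i => (LinearMap.proj i.1).comp (Matrix.mulVecLin W))
  have hfin : Module.finrank ℂ (({a : Fin k // j < a} → ℂ) ×
      ({i : Fin m // i < Fin.castLE hkm j} → ℂ)) < Module.finrank ℂ (Fin k → ℂ) := by
    rw [Module.finrank_prod, Module.finrank_fintype_fun_eq_card,
      Module.finrank_fintype_fun_eq_card, Module.finrank_fintype_fun_eq_card]
    have h1 : Fintype.card {a : Fin k // j < a} = k - 1 - j := by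
      rw [Fintype.card_subtype]
      have : (Finset.univ.filter fun a : Fin k => j < a) = Finset.Ioi j := by ext; simp
      rw [this, Fin.card_Ioi]
    have h2 : Fintype.card {i : Fin m // i < Fin.castLE hkm j} = j := by
      rw [Fintype.card_subtype]
      have : (Finset.univ.filter fun a : Fin m => a < Fin.castLE hkm j) =
        Finset.Iio (Fin.castLE hkm j) := by ext; simp
      rw [this, Fin.card_Iio]; simp
    rw [h1, h2, Fintype.card_fin]
    have := j.2
    omega
  obtain ⟨y, hy, hy0⟩ := (Submodule.ne_bot_iff _).1 (LinearMap.ker_ne_bot_of_finrank_lt hfin (f := T))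
  rw [LinearMap.mem_ker] at hy
  have hya : ∀ a : Fin k, j < a → y a = 0 := by
    intro a ha
    have := congrFun (congrArg Prod.fst hy) ⟨a, ha⟩
    simpa [T] using this
  have hWy : ∀ i : Fin m, i < Fin.castLE hkm j → (W *ᵥ y) i = 0 := by
    intro i hi
    have := congrFun (congrArg Prod.snd hy) ⟨i, hi⟩
    simpa [T] using this
  have e1 : ∑ a, Complex.normSq (y a) = ∑ i, Complex.normSq ((W *ᵥ y) i) := by
    have h1 := re_star_dot y (fun _ => (1 : ℝ))
    have h2 := re_star_dot (W *ᵥ y) (fun _ => (1 : ℝ))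
    simp only [one_mul, Complex.ofReal_one] at h1 h2
    rw [← h1, ← h2]
    congr 1
    show star y ⬝ᵥ y = star (W *ᵥ y) ⬝ᵥ (W *ᵥ y)
    rw [star_mulVec, ← dotProduct_mulVec, mulVec_mulVec, hW, one_mulVec]
  have e2 : ∑ a, ρ a * Complex.normSq (y a) = ∑ i, r i * Complex.normSq ((W *ᵥ y) i) := by
    rw [← re_star_dot y ρ, ← re_star_dot (W *ᵥ y) r]
    congr 1
    have h1 : (fun i => (ρ i : ℂ) * y i) = diagonal (fun i => (ρ i : ℂ)) *ᵥ y := by
      ext i; rw [mulVec_diagonal]
    have h2 : (fun i => (r i : ℂ) * (W *ᵥ y) i) = diagonal (fun i => (r i : ℂ)) *ᵥ (W *ᵥ y) := by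
      ext i; rw [mulVec_diagonal]
    rw [h1, h2, ← h, star_mulVec, ← dotProduct_mulVec, mulVec_mulVec, mulVec_mulVec]
  have e3 : ρ j * ∑ a, Complex.normSq (y a) ≤ ∑ a, ρ a * Complex.normSq (y a) := by
    rw [Finset.mul_sum]
    refine Finset.sum_le_sum fun a _ => ?_
    rcases le_or_gt a j with ha | ha
    · exact mul_le_mul_of_nonneg_right (hρ ha) (Complex.normSq_nonneg _)
    · rw [hya a ha]; simp
  have e4 : ∑ i, r i * Complex.normSq ((W *ᵥ y) i) ≤
      r (Fin.castLE hkm j) * ∑ i, Complex.normSq ((W *ᵥ y) i) := by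
    rw [Finset.mul_sum]
    refine Finset.sum_le_sum fun i _ => ?_
    rcases lt_or_ge i (Fin.castLE hkm j) with ha | ha
    · rw [hWy i ha]; simp
    · exact mul_le_mul_of_nonneg_right (hr ha) (Complex.normSq_nonneg _)
  have hpos : 0 < ∑ a, Complex.normSq (y a) := by
    obtain ⟨a, ha⟩ := Function.ne_iff.1 hy0
    refine Finset.sum_pos' (fun _ _ => Complex.normSq_nonneg _) ⟨a, Finset.mem_univ _, ?_⟩
    exact Complex.normSq_pos.2 ha
  rw [← e1, ← e2] at e4
  exact le_of_mul_le_mul_right (e3.trans e4) hpos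

end Pool.Agent.U925.KF
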