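import Mathlib
import Pool.Agent.U925.KF.Basic
import Pool.Agent.U925.KF.Interlace

set_option autoImplicit false

open Matrix
open scoped ComplexOrder Kronecker

namespace Pool.Agent.U925.KF

variable {ι : Type*} [Fintype ι] [DecidableEq ι]

/-- Sum of the `t` largest eigenvalues of a Hermitian matrix. -/
noncomputable def topSum {H : Matrix ι ι ℂ} (hH : H.IsHermitian) (t : ℕ) : ℝ :=
  ∑ i ∈ Finset.univ.filter (fun i : Fin (Fintype.card ι) => (i : ℕ) < t), hH.eigenvalues₀ i

/-- sorted spectral decomposition -/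
lemma spec {H : Matrix ι ι ℂ} (hH : H.IsHermitian) :
    ∃ V : Matrix ι (Fin (Fintype.card ι)) ℂ, Vᴴ * V = 1 ∧ V * Vᴴ = 1 ∧
      H = V * diagonal (fun i => (hH.eigenvalues₀ i : ℂ)) * Vᴴ := by
  classical
  set e : Fin (Fintype.card ι) ≃ ι := Fintype.equivOfCardEq (Fintype.card_fin _) with he
  set U : Matrix ι ι ℂ := (hH.eigenvectorUnitary : Matrix ι ι ℂ) with hU
  have hU1 : Uᴴ * U = 1 := by
    have := Unitary.coe_star_mul_self hH.eigenvectorUnitary
    simpa [star_eq_conjTranspose] using this
  have hU2 : U * Uᴴ = 1 := by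
    have := Unitary.coe_mul_star_self hH.eigenvectorUnitary
    simpa [star_eq_conjTranspose] using this
  have hsp : H = U * diagonal (fun i => (hH.eigenvalues i : ℂ)) * Uᴴ := by
    have := hH.spectral_theorem
    rw [Unitary.conjStarAlgAut_apply] at this
    simpa [star_eq_conjTranspose, Function.comp_def] using this
  refine ⟨U.submatrix id e, ?_, ?_, ?_⟩
  · rw [conjTranspose_submatrix, ← submatrix_mul _ _ e id e Function.bijective_id, hU1]
    exact submatrix_one_equiv e
  · rw [conjTranspose_submatrix, ← submatrix_mul _ _ id e id e.bijective, hU2]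
    simp
  · have hd : diagonal (fun i => (hH.eigenvalues₀ i : ℂ)) =
        (diagonal (fun i => (hH.eigenvalues i : ℂ))).submatrix e e := by
      rw [submatrix_diagonal_equiv]
      congr 1
      ext i
      simp [Matrix.IsHermitian.eigenvalues, he]
    rw [hd, conjTranspose_submatrix, ← submatrix_mul _ _ id e e e.bijective,
      ← submatrix_mul _ _ id e id e.bijective, ← hsp]
    simp

omit [Fintype ι] [DecidableEq ι] in
lemma diag_re_nonneg {W : Matrix ι ι ℂ} (hW : W.PosSemidef) (i : ι) : 0 ≤ (W i i).re := by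
  have := hW.diag_nonneg (i := i)
  exact (Complex.le_def.1 this).1

lemma diag_re_le_one {W : Matrix ι ι ℂ} (hW : (1 - W).PosSemidef) (i : ι) : (W i i).re ≤ 1 := by
  have := diag_re_nonneg hW i
  simp at this
  exact this

/-- Lemma 1: upper bound for `tr(WH)`. -/
lemma tr_le_topSum {H : Matrix ι ι ℂ} (hH : H.PosSemidef) (W : Matrix ι ι ℂ) (hW : W.PosSemidef)
    (hW1 : (1 - W).PosSemidef) (t : ℕ) (ht : (trace W).re ≤ t) :
    (trace (W * H)).re ≤ topSum hH.1 t := by
  obtain ⟨V, hV1, hV2, hVH⟩ := spec hH.1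
  have h0 : ∀ i, 0 ≤ hH.1.eigenvalues₀ i := by
    intro i
    have := hH.eigenvalues_nonneg ((Fintype.equivOfCardEq (Fintype.card_fin _) :
      Fin (Fintype.card ι) ≃ ι) i)
    simpa [Matrix.IsHermitian.eigenvalues] using this
  have hX : (Vᴴ * W * V).PosSemidef := hW.conjTranspose_mul_mul_same V
  have hX1 : (1 - Vᴴ * W * V).PosSemidef := by
    have := hW1.conjTranspose_mul_mul_same V
    rw [Matrix.mul_sub, Matrix.sub_mul, Matrix.mul_one, hV1] at this
    exact this
  have htr : (trace (W * H)).re = ∑ i, hH.1.eigenvalues₀ i * ((Vᴴ * W * V) i i).re := by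
    have e1 : trace (W * H) = trace (Vᴴ * W * V * diagonal (fun i => (hH.1.eigenvalues₀ i : ℂ))) := by
      have e2 : W * H = W * V * diagonal (fun i => (hH.1.eigenvalues₀ i : ℂ)) * Vᴴ := by
        conv_lhs => rw [hVH]
        simp only [Matrix.mul_assoc]
      rw [e2, trace_mul_comm, ← Matrix.mul_assoc, ← Matrix.mul_assoc]
    rw [e1, trace, Complex.re_sum]
    refine Finset.sum_congr rfl fun i _ => ?_
    rw [diag_apply, mul_diagonal, mul_comm, Complex.re_ofReal_mul]
  rw [htr]
  refine weight_le _ _ hH.1.eigenvalues₀_antitone h0 (fun i => diag_re_nonneg hX i)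
    (fun i => diag_re_le_one hX1 i) t ?_
  refine le_trans (le_of_eq ?_) ht
  have : trace (Vᴴ * W * V) = trace W := by
    rw [trace_mul_comm, ← Matrix.mul_assoc, hV2, Matrix.one_mul]
  rw [← this, trace, Complex.re_sum]
  rfl

/-- Lemma 2: the spectral projection. -/
lemma exists_proj {H : Matrix ι ι ℂ} (hH : H.IsHermitian) (t : ℕ) :
    ∃ P : Matrix ι ι ℂ, P.PosSemidef ∧ (1 - P).PosSemidef ∧ (trace P).re ≤ t ∧
      (trace (P * H)).re = topSum hH t := by
  obtain ⟨V, hV1, hV2, hVH⟩ := spec hH
  set E : Matrix (Fin (Fintype.card ι)) (Fin (Fintype.card ι)) ℂ :=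
    diagonal (fun i => if (i : ℕ) < t then 1 else 0) with hE
  have hE0 : E.PosSemidef := by
    refine PosSemidef.diagonal fun i => ?_
    simp only [Pi.zero_apply]
    split_ifs <;> simp
  have hE1 : (1 - E).PosSemidef := by
    rw [hE, ← diagonal_one, diagonal_sub]
    refine PosSemidef.diagonal fun i => ?_
    simp only [Pi.zero_apply]
    split_ifs <;> simp
  refine ⟨V * E * Vᴴ, hE0.mul_mul_conjTranspose_same V, ?_, ?_, ?_⟩
  · have := hE1.mul_mul_conjTranspose_same V
    rwa [Matrix.mul_sub, Matrix.sub_mul, Matrix.mul_one, hV2] at this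
  · rw [trace_mul_comm, ← Matrix.mul_assoc, hV1, Matrix.one_mul, hE, trace_diagonal,
      Complex.re_sum]
    have : ∀ i : Fin (Fintype.card ι), ((if (i : ℕ) < t then (1 : ℂ) else 0)).re =
        if (i : ℕ) < t then (1 : ℝ) else 0 := by
      intro i; split_ifs <;> simp
    simp_rw [this]
    rw [← Finset.sum_filter, Finset.sum_const, nsmul_eq_mul, mul_one]
    have hc : (Finset.univ.filter fun i : Fin (Fintype.card ι) => (i : ℕ) < t).card ≤ t := by
      calc _ = ((Finset.univ.filter fun i : Fin (Fintype.card ι) => (i : ℕ) < t).map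
            Fin.valEmbedding).card := (Finset.card_map _).symm
        _ ≤ (Finset.range t).card := by
            refine Finset.card_le_card ?_
            intro i hi
            simp only [Finset.mem_map, Finset.mem_filter, Finset.mem_univ, true_and] at hi
            obtain ⟨a, ha, rfl⟩ := hi
            simpa using ha
        _ = t := Finset.card_range t
    exact_mod_cast hc
  · have e1 : trace (V * E * Vᴴ * H) = trace (E * diagonal (fun i => (hH.eigenvalues₀ i : ℂ))) := by
      have e2 : V * E * Vᴴ * H =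
          V * (E * diagonal (fun i => (hH.eigenvalues₀ i : ℂ)) * Vᴴ) := by
        conv_lhs => rw [hVH]
        calc V * E * Vᴴ * (V * diagonal (fun i => (hH.eigenvalues₀ i : ℂ)) * Vᴴ)
            = V * (E * (Vᴴ * V) * diagonal (fun i => (hH.eigenvalues₀ i : ℂ)) * Vᴴ) := by
              simp only [Matrix.mul_assoc]
          _ = _ := by rw [hV1, Matrix.mul_one]
      rw [e2, trace_mul_comm, Matrix.mul_assoc, hV1, Matrix.mul_one]
    rw [e1, hE, diagonal_mul_diagonal, trace_diagonal, Complex.re_sum, topSum, Finset.sum_filter]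
    refine Finset.sum_congr rfl fun i _ => ?_
    split_ifs <;> simp

end Pool.Agent.U925.KF
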