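import Mathlib
import Pool.Agent.U925.KF.Spec

set_option autoImplicit false

open Matrix
open scoped ComplexOrder Kronecker

namespace Pool.Agent.U925.KF

/-- the eigenvalues of a Hermitian `k × k` matrix in nonincreasing order, indexed by `Fin k` -/
noncomputable def eigS {k : ℕ} {X : Matrix (Fin k) (Fin k) ℂ} (hX : X.IsHermitian) (i : Fin k) :
    ℝ :=
  hX.eigenvalues₀ (Fin.cast (Fintype.card_fin k).symm i)

lemma eigS_antitone {k : ℕ} {X : Matrix (Fin k) (Fin k) ℂ} (hX : X.IsHermitian) :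
    Antitone (eigS hX) := by
  intro a b hab
  exact hX.eigenvalues₀_antitone hab

lemma eigS_nonneg {k : ℕ} {X : Matrix (Fin k) (Fin k) ℂ} (hX : X.PosSemidef) (i : Fin k) :
    0 ≤ eigS hX.1 i := by
  have := hX.eigenvalues_nonneg ((Fintype.equivOfCardEq (Fintype.card_fin _) :
      Fin (Fintype.card (Fin k)) ≃ Fin k) (Fin.cast (Fintype.card_fin k).symm i))
  simpa [Matrix.IsHermitian.eigenvalues, eigS] using this

lemma spec' {k : ℕ} {X : Matrix (Fin k) (Fin k) ℂ} (hX : X.IsHermitian) :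
    ∃ V : Matrix (Fin k) (Fin k) ℂ, Vᴴ * V = 1 ∧ V * Vᴴ = 1 ∧
      X = V * diagonal (fun i => (eigS hX i : ℂ)) * Vᴴ := by
  obtain ⟨V, h1, h2, h3⟩ := spec hX
  set e : Fin k ≃ Fin (Fintype.card (Fin k)) := finCongr (Fintype.card_fin k).symm with he
  refine ⟨V.submatrix id e, ?_, ?_, ?_⟩
  · rw [conjTranspose_submatrix, ← submatrix_mul _ _ e id e Function.bijective_id, h1]
    exact submatrix_one_equiv e
  · rw [conjTranspose_submatrix, ← submatrix_mul _ _ id e id e.bijective, h2]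
    simp
  · have hd : diagonal (fun i => (eigS hX i : ℂ)) =
        (diagonal (fun i => (hX.eigenvalues₀ i : ℂ))).submatrix e e := by
      rw [submatrix_diagonal_equiv]
      rfl
    rw [hd, conjTranspose_submatrix, ← submatrix_mul _ _ id e e e.bijective,
      ← submatrix_mul _ _ id e id e.bijective, ← h3]
    simp

variable {m n : ℕ}

/-- partial trace over the second factor -/
def ptr (P : Matrix (Fin m × Fin n) (Fin m × Fin n) ℂ) : Matrix (Fin m) (Fin m) ℂ :=
  ∑ i : Fin n, P.submatrix (fun a => (a, i)) (fun a => (a, i))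

lemma ptr_apply (P : Matrix (Fin m × Fin n) (Fin m × Fin n) ℂ) (a b : Fin m) :
    ptr P a b = ∑ i, P (a, i) (b, i) := by
  simp [ptr, Matrix.sum_apply]

lemma ptr_posSemidef {P : Matrix (Fin m × Fin n) (Fin m × Fin n) ℂ} (hP : P.PosSemidef) :
    (ptr P).PosSemidef := by
  unfold ptr
  exact posSemidef_sum _ fun i _ => hP.submatrix _

lemma trace_ptr_mul (P : Matrix (Fin m × Fin n) (Fin m × Fin n) ℂ) (X : Matrix (Fin m) (Fin m) ℂ) :
    trace (ptr P * X) = trace (P * (X ⊗ₖ (1 : Matrix (Fin n) (Fin n) ℂ))) := by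
  simp only [trace, diag_apply, mul_apply, ptr_apply, Fintype.sum_prod_type, kroneckerMap_apply]
  refine Finset.sum_congr rfl fun a _ => ?_
  simp only [Finset.sum_mul]
  rw [Finset.sum_comm]
  refine Finset.sum_congr rfl fun i _ => ?_
  refine Finset.sum_congr rfl fun b _ => ?_
  rw [Finset.sum_eq_single i]
  · simp
  · intro j _ hj; simp [one_apply, hj]
  · simp

lemma ptr_conj (P : Matrix (Fin m × Fin n) (Fin m × Fin n) ℂ) (U : Matrix (Fin m) (Fin m) ℂ)
    (V : Matrix (Fin n) (Fin n) ℂ) (hV : V * Vᴴ = 1) :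
    ptr ((U ⊗ₖ V)ᴴ * P * (U ⊗ₖ V)) = Uᴴ * ptr P * U := by
  rw [ext_iff_trace_mul_right]
  intro X
  rw [trace_ptr_mul]
  have h1 : trace ((U ⊗ₖ V)ᴴ * P * (U ⊗ₖ V) * (X ⊗ₖ (1 : Matrix (Fin n) (Fin n) ℂ))) =
      trace (P * ((U * X * Uᴴ) ⊗ₖ (V * 1 * Vᴴ))) := by
    rw [mul_kronecker_mul, mul_kronecker_mul, ← conjTranspose_kronecker]
    rw [show (U ⊗ₖ V)ᴴ * P * (U ⊗ₖ V) * (X ⊗ₖ (1 : Matrix (Fin n) (Fin n) ℂ)) =
      (U ⊗ₖ V)ᴴ * (P * (U ⊗ₖ V) * (X ⊗ₖ (1 : Matrix (Fin n) (Fin n) ℂ))) by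
        simp only [mul_assoc], trace_mul_comm]
    simp only [mul_assoc]
  rw [h1, mul_one, hV, ← trace_ptr_mul]
  calc trace (ptr P * (U * X * Uᴴ)) = trace ((ptr P * U * X) * Uᴴ) := by
        simp only [mul_assoc]
    _ = trace (Uᴴ * (ptr P * U * X)) := trace_mul_comm _ _
    _ = trace (Uᴴ * ptr P * U * X) := by simp only [mul_assoc]

lemma card_low_le (n l : ℕ) : (low n l).card ≤ l := by
  calc (low n l).card = ((low n l).map Fin.valEmbedding).card := (Finset.card_map _).symm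
    _ ≤ (Finset.range l).card := by
        refine Finset.card_le_card ?_
        intro i hi
        simp only [low, Finset.mem_map, Finset.mem_filter, Finset.mem_univ, true_and] at hi
        obtain ⟨a, ha, rfl⟩ := hi
        simpa using ha
    _ = l := Finset.card_range l

lemma sum_low_castLE {m k : ℕ} (hkm : k ≤ m) (f : Fin m → ℝ) :
    ∑ j ∈ low m k, f j = ∑ a : Fin k, f (Fin.castLE hkm a) := by
  have : low m k = (Finset.univ : Finset (Fin k)).map (Fin.castLEEmb hkm) := by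
    ext j
    simp only [low, Finset.mem_filter, Finset.mem_univ, true_and, Finset.mem_map]
    constructor
    · intro h
      exact ⟨⟨j, h⟩, by ext; simp⟩
    · rintro ⟨a, rfl⟩
      simp
  rw [this, Finset.sum_map]
  rfl

/-- The corner sums of the diagonal of a sub-projection with a given partial trace. -/
lemma block (P : Matrix (Fin m × Fin n) (Fin m × Fin n) ℂ) (hP : P.PosSemidef)
    (hP1 : (1 - P).PosSemidef) (Z : Matrix (Fin m) (Fin m) ℂ) (hZ : Z * Zᴴ = 1)
    (r : Fin m → ℝ) (hr : Antitone r) (hR : ptr P = Z * diagonal (fun i => (r i : ℂ)) * Zᴴ)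
    (k l : ℕ) (hk : k ≤ m) :
    ∑ j ∈ low m k, ∑ i ∈ low n l, (P (j, i) (j, i)).re ≤ ∑ j ∈ low m k, min (l : ℝ) (r j) := by
  set c : Fin k → Fin m := Fin.castLE hk with hc
  have hcinj : Function.Injective c := Fin.castLE_injective hk
  set S : Matrix (Fin k) (Fin k) ℂ := (ptr P).submatrix c c with hS
  have hSp : S.PosSemidef := (ptr_posSemidef hP).submatrix c
  obtain ⟨X, hX1, hX2, hX3⟩ := spec' hSp.1
  set ρ := eigS hSp.1 with hρ
  set C : Matrix (Fin m) (Fin k) ℂ := (1 : Matrix (Fin m) (Fin m) ℂ).submatrix id c with hC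
  have hCR : Cᴴ * ptr P * C = S := by
    rw [hC, conjTranspose_submatrix, conjTranspose_one, hS]
    ext a b
    simp [mul_apply, one_apply]
  have hCC : Cᴴ * C = 1 := by
    rw [hC, conjTranspose_submatrix, conjTranspose_one]
    ext a b
    simp [mul_apply, one_apply, hcinj.eq_iff]
  have hXS : Xᴴ * S * X = diagonal (fun i => (ρ i : ℂ)) := by
    rw [hX3]
    calc Xᴴ * (X * diagonal (fun i => (ρ i : ℂ)) * Xᴴ) * X
        = (Xᴴ * X) * diagonal (fun i => (ρ i : ℂ)) * (Xᴴ * X) := by simp only [Matrix.mul_assoc]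
      _ = _ := by rw [hX1, Matrix.one_mul, Matrix.mul_one]
  have hint : ∀ a, ρ a ≤ r (c a) := by
    intro a
    refine interlace hk (Zᴴ * C * X) ?_ r ρ hr (eigS_antitone _) ?_ a
    · calc (Zᴴ * C * X)ᴴ * (Zᴴ * C * X) = Xᴴ * (Cᴴ * (Z * Zᴴ) * C) * X := by
            simp only [conjTranspose_mul, conjTranspose_conjTranspose, Matrix.mul_assoc]
        _ = 1 := by rw [hZ, Matrix.mul_one, hCC, Matrix.mul_one, hX1]
    · calc (Zᴴ * C * X)ᴴ * diagonal (fun i => (r i : ℂ)) * (Zᴴ * C * X)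
          = Xᴴ * (Cᴴ * (Z * diagonal (fun i => (r i : ℂ)) * Zᴴ) * C) * X := by
            simp only [conjTranspose_mul, conjTranspose_conjTranspose, Matrix.mul_assoc]
        _ = _ := by rw [← hR, hCR, hXS]
  set Q : Fin n → Matrix (Fin k) (Fin k) ℂ := fun i =>
    P.submatrix (fun a => (c a, i)) (fun a => (c a, i)) with hQ
  have hQp : ∀ i, (Xᴴ * Q i * X).PosSemidef := fun i =>
    (hP.submatrix _).conjTranspose_mul_mul_same X
  have hQ1 : ∀ i, (1 - Xᴴ * Q i * X).PosSemidef := by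
    intro i
    have h1 : (1 - Q i).PosSemidef := by
      have h2 := hP1.submatrix (fun a : Fin k => (c a, i))
      have h3 : (1 - P).submatrix (fun a : Fin k => (c a, i)) (fun a => (c a, i)) = 1 - Q i := by
        ext a b
        simp [hQ, one_apply, hcinj.eq_iff]
      rwa [h3] at h2
    have h2 := h1.conjTranspose_mul_mul_same X
    rwa [Matrix.mul_sub, Matrix.sub_mul, Matrix.mul_one, hX1] at h2
  have hQtr : ∀ i, trace (Xᴴ * Q i * X) = trace (Q i) := by
    intro i
    rw [trace_mul_comm, ← Matrix.mul_assoc, hX2, Matrix.one_mul]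
  have hQsum : ∀ a, ∑ i, ((Xᴴ * Q i * X) a a).re = ρ a := by
    intro a
    have h1 : ∑ i, Xᴴ * Q i * X = diagonal (fun i => (ρ i : ℂ)) := by
      rw [← hXS, ← Finset.sum_mul, ← Finset.mul_sum]
      congr 2
      ext x y
      simp [hQ, hS, ptr_apply, Matrix.sum_apply]
    have h2 := congrFun (congrFun h1 a) a
    rw [Matrix.sum_apply, diagonal_apply_eq] at h2
    rw [← Complex.re_sum, h2, Complex.ofReal_re]
  calc ∑ j ∈ low m k, ∑ i ∈ low n l, (P (j, i) (j, i)).re
      = ∑ a : Fin k, ∑ i ∈ low n l, (P (c a, i) (c a, i)).re :=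
        sum_low_castLE hk fun j => ∑ i ∈ low n l, (P (j, i) (j, i)).re
    _ = ∑ i ∈ low n l, ∑ a : Fin k, (Q i a a).re := by
        rw [Finset.sum_comm]; rfl
    _ = ∑ i ∈ low n l, ∑ a : Fin k, ((Xᴴ * Q i * X) a a).re := by
        refine Finset.sum_congr rfl fun i _ => ?_
        have := congrArg Complex.re (hQtr i)
        rw [trace, trace, Complex.re_sum, Complex.re_sum] at this
        exact this.symm
    _ = ∑ a : Fin k, ∑ i ∈ low n l, ((Xᴴ * Q i * X) a a).re := Finset.sum_comm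
    _ ≤ ∑ a : Fin k, min (l : ℝ) (r (c a)) := by
        refine Finset.sum_le_sum fun a _ => le_min ?_ ?_
        · calc ∑ i ∈ low n l, ((Xᴴ * Q i * X) a a).re ≤ ∑ i ∈ low n l, (1 : ℝ) :=
                Finset.sum_le_sum fun i _ => diag_re_le_one (hQ1 i) a
            _ = (low n l).card := by simp
            _ ≤ l := by exact_mod_cast card_low_le n l
        · calc ∑ i ∈ low n l, ((Xᴴ * Q i * X) a a).re ≤ ∑ i, ((Xᴴ * Q i * X) a a).re :=
                Finset.sum_le_univ_sum_of_nonneg fun i => diag_re_nonneg (hQp i) a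
            _ = ρ a := hQsum a
            _ ≤ r (c a) := hint a
    _ = ∑ j ∈ low m k, min (l : ℝ) (r j) := (sum_low_castLE hk fun j => min (l : ℝ) (r j)).symm

end Pool.Agent.U925.KF
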